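import Pool.Agent.Helper82.HG.M_BAS
import Pool.Agent.Helper82.HG.M_LAM
import Pool.Agent.Helper82.HC.M_DIS
import Pool.Agent.Helper82.HC.M_GEN
import Pool.Agent.Helper82.HC.M_WGT
import Pool.Agent.Helper82.HC.M_MIN
import Pool.Agent.Helper82.HC.M_EST
import Pool.Agent.Helper82.HC.M_SEP
import Pool.Agent.Helper82.HC.M_CLS
import Pool.Agent.Helper82.HC.M_SUM
import Pool.Agent.Helper82.HC.M_TAIL
import Pool.Agent.Helper82.HC.M_PTH
import Pool.Agent.Helper82.HC.M_ACT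
import Pool.Agent.Helper82.HC.M_STP
import Pool.Agent.Helper82.HC.M_CTR
import Pool.Agent.Helper82.HC.M_FAR
import Pool.Agent.Helper82.HC.M_FIN

set_option autoImplicit false

namespace Pool.Agent.Results.MP_10ef18_an.DiniLogModulus

open Pool.Agent.Helper82.HG Pool.Agent.Helper82.HC

/-- **Hector's conjecture on the finiteness of gap orbits, in class `C^{2+α}`** (more generally for
`C²` diffeomorphisms whose second derivatives have a modulus of continuity `ω` with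
`∑ (k+1) ω(2^{-k}) < ∞`). The group is generated by finitely many circle diffeomorphisms, given by
lifts to the line, and the unit translation; `Λ` is the lift of an exceptional minimal set. Then the
gaps of `Λ` fall into finitely many orbits. -/
theorem result :
    ∀ (n : ℕ) (F : Fin n → Equiv.Perm ℝ),
      (∀ i, ContDiff ℝ 2 (⇑(F i))) →
      (∀ i x, deriv (⇑(F i)) x ≠ 0) →
      (∀ i, ∃ d : ℝ, (d = 1 ∨ d = -1) ∧ ∀ x : ℝ, F i (x + 1) = F i x + d) →
      (∃ ω : ℝ → ℝ, (∀ s t, 0 ≤ s → s ≤ t → ω s ≤ ω t) ∧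
        Summable (fun k : ℕ => ((k : ℝ) + 1) * ω ((1 / 2) ^ k)) ∧
        ∀ i x y, |iteratedDeriv 2 (⇑(F i)) x - iteratedDeriv 2 (⇑(F i)) y| ≤ ω |x - y|) →
      ∀ Λ : Set ℝ, IsClosed Λ →
        (∀ g ∈ Subgroup.closure (insert (Equiv.addRight (1 : ℝ)) (Set.range F)),
            ⇑g '' Λ ⊆ Λ) →
        (∀ K : Set ℝ, K ⊆ Λ → IsClosed K → K.Nonempty →
            (∀ g ∈ Subgroup.closure (insert (Equiv.addRight (1 : ℝ)) (Set.range F)),
                ⇑g '' K ⊆ K) → K = Λ) →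
        Λ ≠ Set.univ →
        (Λ ∩ Set.Ico (0 : ℝ) 1).Infinite →
        ∃ s : Finset (ℝ × ℝ), ∀ a b : ℝ, a < b → a ∈ Λ → b ∈ Λ →
          Set.Ioo a b ∩ Λ = ∅ →
          ∃ p ∈ s, ∃ g ∈ Subgroup.closure (insert (Equiv.addRight (1 : ℝ)) (Set.range F)),
            ⇑g '' Set.Ioo p.1 p.2 = Set.Ioo a b := by
  intro n F hF hd hdeg hmod Λ hc hinv hmin hu hinf
  obtain ⟨K, K', om, S, hK, hS, hom, hK', hD, hG⟩ := tGEN tDIS n F hF hd hdeg hmod
  rw [← hG] at hinv hmin ⊢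
  have hLam : Lam S Λ := ⟨hc, hinv, hmin, hu, hinf⟩
  have bas := tBAS
  have lam := tLAM bas
  have wgt := tWGT bas lam
  have act := tACT bas lam
  have stp := tSTP bas act
  have ctr := tCTR bas lam wgt tMIN tEST (tSUM (tCLS tSEP)) tTAIL tPTH act stp
  have far := tFAR bas lam act
  have fin := tFIN bas lam wgt
  obtain ⟨δ, hδ, hctr⟩ := ctr K K' om S Λ hS hLam hom hK' hD
  obtain ⟨η, hη, hfar⟩ := far K S Λ hS hLam
  obtain ⟨s, hs⟩ := fin K S Λ hS hLam ⟨min δ (η / 11), lt_min hδ (by linarith), by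
    intro P hP h1 h2
    by_contra hcon
    rw [not_le, lt_min_iff] at hcon
    obtain ⟨Q, hQ, hQ2⟩ := hctr P hP hcon.1.le h1 h2
    obtain ⟨g, hg, hg2⟩ := hfar Q hQ
    have := hQ2 g hg
    linarith [hcon.2]⟩
  exact ⟨s, fun a b hab ha hb hI => hs a b ⟨hab, ha, hb, hI⟩⟩

end Pool.Agent.Results.MP_10ef18_an.DiniLogModulus
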