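import Pool.Agent.Helper21.HN.M_LIQ
import Pool.Agent.Helper58.LC.Cor

set_option autoImplicit false

namespace Pool.Agent.Results.MP_10ef18_an.GapOrbitCount

open MeasureTheory Pool.Agent.Helper82.HG Pool.Agent.Helper21.HN

/-- The total length modulo `1` of the images of length at least `ε` of the interval
`(p.1, p.2)` under the group `G` (for `ε = 0` of all images). -/
noncomputable def total (G : Subgroup (Equiv.Perm ℝ)) (p : ℝ × ℝ) (ε : ℝ) : ℝ :=
  (volume ({x : ℝ | ∃ g ∈ G, ε ≤ |g p.2 - g p.1| ∧ x ∈ ⇑g '' Set.Ioo p.1 p.2} ∩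
    Set.Ico (0 : ℝ) 1)).toReal

/-- **The number of gap orbits of a `C²` exceptional minimal set is at most logarithmic.**
The group is generated by finitely many `C²` circle diffeomorphisms, given by lifts to the line, and
the unit translation; `K ≥ 1` bounds `|F i''| / |F i'|` and `|F i''| / |F i'| ^ 2`; `Λ` is the lift of an
exceptional minimal set, of any Lebesgue measure. For every finite family `s` of gaps in different
orbits and `0 < ε ≤ 1`, the sum over `s` of the proportions of the length of the orbit which is carried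
by gaps of length at least `ε` is at most `75000 K (1 + ∫₀¹ log (1 / max (dist (z, Λ), ε / K)) dz)`, the
integral being at most `log (K / ε)`. If the gaps of `s` have length at least `ε`, then
`ε (card s)²` is at most the same quantity. If `Λ` is a null set and the logarithm of the distance to
`Λ` is integrable, then there are at most `75000 K (1 + ∫₀¹ |log dist (z, Λ)| dz)` orbits. -/
theorem result :
    ∀ (n : ℕ) (F : Fin n → Equiv.Perm ℝ) (K : ℝ),
      (∀ i, ContDiff ℝ 2 (⇑(F i))) →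
      (∀ i x, deriv (⇑(F i)) x ≠ 0) →
      (∀ i, ∃ d : ℝ, (d = 1 ∨ d = -1) ∧ ∀ x : ℝ, F i (x + 1) = F i x + d) →
      1 ≤ K →
      (∀ i x, |iteratedDeriv 2 (⇑(F i)) x| ≤ K * |deriv (⇑(F i)) x| ∧
        |iteratedDeriv 2 (⇑(F i)) x| ≤ K * |deriv (⇑(F i)) x| ^ 2) →
      ∀ Λ : Set ℝ, IsClosed Λ →
        (∀ g ∈ Subgroup.closure (insert (Equiv.addRight (1 : ℝ)) (Set.range F)),
            ⇑g '' Λ ⊆ Λ) →
        (∀ M : Set ℝ, M ⊆ Λ → IsClosed M → M.Nonempty →
            (∀ g ∈ Subgroup.closure (insert (Equiv.addRight (1 : ℝ)) (Set.range F)),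
                ⇑g '' M ⊆ M) → M = Λ) →
        Λ ≠ Set.univ →
        (Λ ∩ Set.Ico (0 : ℝ) 1).Infinite →
        ∀ s : Finset (ℝ × ℝ),
          (∀ p ∈ s, p.1 < p.2 ∧ p.1 ∈ Λ ∧ p.2 ∈ Λ ∧ Set.Ioo p.1 p.2 ∩ Λ = ∅) →
          (∀ p ∈ s, ∀ q ∈ s,
            (∃ g ∈ Subgroup.closure (insert (Equiv.addRight (1 : ℝ)) (Set.range F)),
              ⇑g '' Set.Ioo p.1 p.2 = Set.Ioo q.1 q.2) → p = q) →
          (∀ ε : ℝ, 0 < ε → ε ≤ 1 →
            ∑ p ∈ s, total (Subgroup.closure (insert (Equiv.addRight (1 : ℝ)) (Set.range F))) p ε /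
                total (Subgroup.closure (insert (Equiv.addRight (1 : ℝ)) (Set.range F))) p 0 ≤
              75000 * K * (1 + ∫ z in Set.Icc (0 : ℝ) 1,
                Real.log (1 / max (Metric.infDist z Λ) (ε / K))) ∧
            (∫ z in Set.Icc (0 : ℝ) 1, Real.log (1 / max (Metric.infDist z Λ) (ε / K))) ≤
              Real.log (K / ε) ∧
            ((∀ p ∈ s, ε ≤ p.2 - p.1) → ε * (s.card : ℝ) ^ 2 ≤
              75000 * K * (1 + ∫ z in Set.Icc (0 : ℝ) 1,
                Real.log (1 / max (Metric.infDist z Λ) (ε / K))))) ∧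
          (volume Λ = 0 →
            IntegrableOn (fun z => Real.log (Metric.infDist z Λ)) (Set.Icc (0 : ℝ) 1) →
            (s.card : ℝ) ≤
              75000 * K * (1 + ∫ z in Set.Icc (0 : ℝ) 1, |Real.log (Metric.infDist z Λ)|)) := by
  intro n F K hF hd hdeg hK hb Λ hc hinv hmin hu hinf s hs hne
  obtain ⟨S, hS, hG⟩ := tLIQ n F K hF hd hdeg hb
  rw [← hG] at hinv hmin hne ⊢
  have hLam : Lam S Λ := ⟨hc, hinv, hmin, hu, hinf⟩
  have hgap : ∀ u ∈ s, Gap Λ u.1 u.2 := hs
  refine ⟨fun ε h0 h1 => ⟨?_, ?_, fun hlen => ?_⟩, fun h0 hi => ?_⟩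
  · exact Pool.Agent.Helper58.LC.core2 hK hS hLam s hgap hne h0 h1
  · exact Pool.Agent.Helper58.LC.int_le hK Λ h0
  · have := Pool.Agent.Helper58.LC.cor_card hK hS hLam s hgap hne h0 h1 hlen
    rw [mul_comm]
    exact this
  · exact Pool.Agent.Helper58.LC.cor_null hK hS hLam s hgap hne h0 hi

end Pool.Agent.Results.MP_10ef18_an.GapOrbitCount
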