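import Pool.Agent.Helper82.HG.M_LIP
import Pool.Agent.Helper82.HG.M_BAS
import Pool.Agent.Helper82.HG.M_LAM
import Pool.Agent.Helper82.HG.M_CTL
import Pool.Agent.Helper82.HG.M_CTM
import Pool.Agent.Helper82.HG.M_PA
import Pool.Agent.Helper82.HG.M_PB
import Pool.Agent.Helper82.HG.M_NCF
import Pool.Agent.Helper82.HG.M_NID
import Pool.Agent.Helper82.HG.M_CRO
import Pool.Agent.Helper82.HG.M_SEP
import Pool.Agent.Helper82.HC.M_WGT
import Pool.Agent.Helper82.HC.M_ACT
import Pool.Agent.Helper82.HC.M_FAR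
import Pool.Agent.Helper82.HC.M_FIN
import Pool.Agent.Helper21.HN.M_PAC
import Pool.Agent.Helper21.HN.M_GEO
import Pool.Agent.Helper21.HN.M_WAY
import Pool.Agent.Helper21.HN.M_NEA
import Pool.Agent.Helper21.HN.M_WTC
import Pool.Agent.Helper21.HN.M_TRA
import Pool.Agent.Helper21.HN.M_TRB
import Pool.Agent.Helper21.HN.M_CST
import Pool.Agent.Helper21.HN.M_COV
import Pool.Agent.Helper21.HN.M_PER
import Pool.Agent.Helper21.HN.M_MIN
import Pool.Agent.Helper21.HN.M_SML
import Pool.Agent.Helper39.HS.M_INN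
import Pool.Agent.Helper39.HS.M_INQ
import Pool.Agent.Helper39.HS.M_LMN
import Pool.Agent.Helper39.HS.M_TOP
import Pool.Agent.Helper39.HS.M_IMP
import Pool.Agent.Helper39.HS.M_LBA
import Pool.Agent.Helper39.HS.M_ANC
import Pool.Agent.Helper39.HS.M_EXI
import Pool.Agent.Helper39.HS.M_REC
import Pool.Agent.Helper39.HS.M_MEA
import Pool.Agent.Helper39.HS.M_EGP
import Pool.Agent.Helper39.HS.M_LAC
import Pool.Agent.Helper39.HS.M_LAB
import Pool.Agent.Helper39.HS.M_PRV
import Pool.Agent.Helper39.HS.M_CON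
import Pool.Agent.Helper39.HS.M_FNL
import Pool.Agent.Helper39.HS.M_VOL
import Pool.Agent.Helper39.HS.M_ABS
import Pool.Agent.Helper39.HS.M_DST
import Pool.Agent.Helper39.HS.M_FIL
import Pool.Agent.Helper39.HS.M_INS
import Pool.Agent.Helper39.HS.M_TNY
import Pool.Agent.Helper39.HS.M_DJA
import Pool.Agent.Helper39.HS.M_DJN
import Pool.Agent.Helper39.HS.M_MDS
import Pool.Agent.Helper39.HS.M_EGS
import Pool.Agent.Helper39.HS.M_EXS
import Pool.Agent.Helper39.HS.M_CMP
import Pool.Agent.Helper39.HS.M_FNS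
import Pool.Agent.Helper39.HS.M_TOA
import Pool.Agent.Helper39.HS.M_THK
import Pool.Agent.Helper39.HS.M_SYS
import Pool.Agent.Helper39.HS.M_BIG
import Pool.Agent.Helper39.HS.M_LIM
import Pool.Agent.Helper39.HS.M_LVL
import Pool.Agent.Helper39.HS.M_LVR
import Pool.Agent.Helper39.HS.M_DEN
import Pool.Agent.Helper39.HS.M_PUL
import Pool.Agent.Helper39.HS.M_MNS
import Pool.Agent.Helper39.HS.M_CNC

set_option autoImplicit false

namespace Pool.Agent.Results.MP_10ef18_an.InvariantDensity

open MeasureTheory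

/-- `x` is a conical point of the group `H`: arbitrarily short intervals around `x` are mapped by
elements of `H` to intervals of definite length `≥ r`, with distortion at most `C`. -/
def Conical (H : Subgroup (Equiv.Perm ℝ)) (x : ℝ) : Prop :=
  ∃ r C : ℝ, 0 < r ∧ ∀ ε : ℝ, 0 < ε → ∃ g ∈ H, ∃ p q : ℝ, p < x ∧ x < q ∧ q - p ≤ ε ∧
    r ≤ |g q - g p| ∧
    ∀ y ∈ Set.Icc p q, ∀ z ∈ Set.Icc p q, |deriv (⇑g) y| ≤ C * |deriv (⇑g) z|

/-- `x` is an elliptic point of the group `H`: the derivatives at `x` of the elements of `H` are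
bounded. -/
def Elliptic (H : Subgroup (Equiv.Perm ℝ)) (x : ℝ) : Prop :=
  ∃ C : ℝ, ∀ g ∈ H, |deriv (⇑g) x| ≤ C

/-- `ρ` is positive at `x` and transforms along the orbit of `x` like the density of an `H`-invariant
measure. -/
def InvariantAt (H : Subgroup (Equiv.Perm ℝ)) (ρ : ℝ → ℝ) (x : ℝ) : Prop :=
  0 < ρ x ∧ ∀ g ∈ H, ρ (g x) * |deriv (⇑g) x| = ρ x

open Pool.Agent.Helper82.HG Pool.Agent.Helper21.HN in
/-- **Hector's conjecture on the finiteness of gap orbits, outside type III**, in class `C²`, for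
exceptional minimal sets of arbitrary Lebesgue measure. The group is generated by finitely many circle
diffeomorphisms, given by lifts to the line, and the unit translation; `Λ` is the lift of an exceptional
minimal set. If Lebesgue almost every point of `Λ` is conical, or elliptic, or in the domain of an
invariant density `ρ`, then the gaps of `Λ` fall into finitely many orbits. -/
theorem result :
    ∀ (n : ℕ) (F : Fin n → Equiv.Perm ℝ),
      (∀ i, ContDiff ℝ 2 (⇑(F i))) →
      (∀ i x, deriv (⇑(F i)) x ≠ 0) →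
      (∀ i, ∃ d : ℝ, (d = 1 ∨ d = -1) ∧ ∀ x : ℝ, F i (x + 1) = F i x + d) →
      ∀ Λ : Set ℝ, IsClosed Λ →
        (∀ g ∈ Subgroup.closure (insert (Equiv.addRight (1 : ℝ)) (Set.range F)),
            ⇑g '' Λ ⊆ Λ) →
        (∀ K : Set ℝ, K ⊆ Λ → IsClosed K → K.Nonempty →
            (∀ g ∈ Subgroup.closure (insert (Equiv.addRight (1 : ℝ)) (Set.range F)),
                ⇑g '' K ⊆ K) → K = Λ) →
        Λ ≠ Set.univ →
        (Λ ∩ Set.Ico (0 : ℝ) 1).Infinite →
        ∀ ρ : ℝ → ℝ, Measurable ρ →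
        (∀ᵐ x ∂(volume.restrict Λ),
          Conical (Subgroup.closure (insert (Equiv.addRight (1 : ℝ)) (Set.range F))) x ∨
          Elliptic (Subgroup.closure (insert (Equiv.addRight (1 : ℝ)) (Set.range F))) x ∨
          InvariantAt (Subgroup.closure (insert (Equiv.addRight (1 : ℝ)) (Set.range F))) ρ x) →
        ∃ s : Finset (ℝ × ℝ), ∀ a b : ℝ, a < b → a ∈ Λ → b ∈ Λ →
          Set.Ioo a b ∩ Λ = ∅ →
          ∃ p ∈ s, ∃ g ∈ Subgroup.closure (insert (Equiv.addRight (1 : ℝ)) (Set.range F)),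
            ⇑g '' Set.Ioo p.1 p.2 = Set.Ioo a b := by
  intro n F hF hd hdeg Λ hc hinv hmin hu hinf ρ hρ hae
  obtain ⟨K, S, hK, hS, hG⟩ := tLIP n F hF hd hdeg
  rw [← hG] at hinv hmin hae ⊢
  have hLam : Lam S Λ := ⟨hc, hinv, hmin, hu, hinf⟩
  have bas := tBAS
  have lam := tLAM bas
  have ctl := tCTL bas
  have ctm := tCTM bas ctl
  have pb := tPB tPA
  have ncf := tNCF bas lam ctm tPA pb
  have nid := tNID bas ctl ctm
  have sep := tSEP lam ncf nid tCRO
  have wgt := Pool.Agent.Helper82.HC.tWGT bas lam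
  have act := Pool.Agent.Helper82.HC.tACT bas lam
  have far := Pool.Agent.Helper82.HC.tFAR bas lam act
  have fin := Pool.Agent.Helper82.HC.tFIN bas lam wgt
  have pac := tPAC bas act
  have geo := tGEO lam
  have way := tWAY act pac
  have nea := tNEA bas act ctl way
  have wtc := tWTC lam wgt act nea way
  have tra := tTRA bas act way nea
  have trb := tTRB bas act way nea
  have cst := tCST bas act pac way
  have mn := tMIN lam wgt sep
  have sml := tSML lam wgt act way wtc
  have inn := Pool.Agent.Helper39.HS.tINN lam geo wtc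
  have inq := Pool.Agent.Helper39.HS.tINQ bas lam pac way wtc cst inn
  have lmn := Pool.Agent.Helper39.HS.tLMN lam act geo way wtc cst inq
  have top := Pool.Agent.Helper39.HS.tTOP act geo way wtc cst lmn
  have imp := Pool.Agent.Helper39.HS.tIMP act pac geo way trb cst top
  have lba := Pool.Agent.Helper39.HS.tLBA act pac geo way nea tra cst
  have anc := Pool.Agent.Helper39.HS.tANC geo cst lmn
  have exi := Pool.Agent.Helper39.HS.tEXI cst
  have hrec := Pool.Agent.Helper39.HS.tREC pac cst top anc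
  have mea := Pool.Agent.Helper39.HS.tMEA tPER
  have egp := Pool.Agent.Helper39.HS.tEGP lam act pac geo way nea cst lmn tPER
  have lac := Pool.Agent.Helper39.HS.tLAC act pac geo way cst imp lba anc
  have lab := Pool.Agent.Helper39.HS.tLAB act pac geo way wtc cst tCOV lmn exi mea egp lac
  have prv := Pool.Agent.Helper39.HS.tPRV act pac geo way cst lmn imp lba
  have con := Pool.Agent.Helper39.HS.tCON act pac geo way nea wtc cst tCOV lmn hrec mea egp lab prv
  have fnl := Pool.Agent.Helper39.HS.tFNL cst con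
  have vol := Pool.Agent.Helper39.HS.tVOL
  have abs := Pool.Agent.Helper39.HS.tABS vol
  have dst := Pool.Agent.Helper39.HS.tDST bas act pac way
  have fil := Pool.Agent.Helper39.HS.tFIL bas act pac geo way vol dst
  have ins := Pool.Agent.Helper39.HS.tINS lam geo wtc
  have tny := Pool.Agent.Helper39.HS.tTNY lam wgt sep ins
  have dja := Pool.Agent.Helper39.HS.tDJA bas lam act pac geo way abs dst tny
  have djn := Pool.Agent.Helper39.HS.tDJN bas lam act pac geo way dja
  have mds := Pool.Agent.Helper39.HS.tMDS pac geo way cst tPER fil djn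
  have egs := Pool.Agent.Helper39.HS.tEGS bas lam act pac geo way cst tPER dst fil djn
  have exs := Pool.Agent.Helper39.HS.tEXS cst
  have cmp := Pool.Agent.Helper39.HS.tCMP lam
  have fns := Pool.Agent.Helper39.HS.tFNS lam act pac geo way cst tCOV far fil mds egs exs cmp
  have toa := Pool.Agent.Helper39.HS.tTOA bas lam wgt tPER
  have thk := Pool.Agent.Helper39.HS.tTHK
  have sys := Pool.Agent.Helper39.HS.tSYS lam wgt fin mn sml toa thk
  have big := Pool.Agent.Helper39.HS.tBIG lam act pac cst far thk fnl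
  have lim := Pool.Agent.Helper39.HS.tLIM geo cst
  have lvl := Pool.Agent.Helper39.HS.tLVL bas
  have lvr := Pool.Agent.Helper39.HS.tLVR
  have den := Pool.Agent.Helper39.HS.tDEN geo cst
  have pul := Pool.Agent.Helper39.HS.tPUL bas lam act pac geo way cst vol dst
  have mns := Pool.Agent.Helper39.HS.tMNS sys big lim lvl lvr den pul fns
  have cnc := Pool.Agent.Helper39.HS.tCNC bas lam vol
  have hreg : ∀ᵐ x ∂(volume.restrict Λ), Pool.Agent.Helper39.HS.Reg (Gr S) ρ x := by
    filter_upwards [hae, cnc K S Λ hS hLam] with x h1 h2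
    rcases h1 with h | h | h
    · exact absurd h h2
    · exact Or.inl h
    · exact Or.inr h
  obtain ⟨s, hs⟩ := mns K S Λ hK hS hLam ρ hρ hreg
  exact ⟨s, fun a b hab ha hb hI => hs a b ⟨hab, ha, hb, hI⟩⟩

end Pool.Agent.Results.MP_10ef18_an.InvariantDensity
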