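import Pool.Agent.Helper82.HG.M_LIP
import Pool.Agent.Helper82.HG.M_BAS
import Pool.Agent.Helper82.HG.M_LAM
import Pool.Agent.Helper82.HG.M_CTL
import Pool.Agent.Helper82.HG.M_CTM
import Pool.Agent.Helper82.HG.M_PA
import Pool.Agent.Helper82.HG.M_PB
import Pool.Agent.Helper82.HG.M_NCF
import Pool.Agent.Helper82.HG.M_NID
import Pool.Agent.Helper82.HG.M_CRO
import Pool.Agent.Helper82.HG.M_SEP
import Pool.Agent.Helper82.HC.M_WGT
import Pool.Agent.Helper82.HC.M_ACT
import Pool.Agent.Helper82.HC.M_FAR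
import Pool.Agent.Helper82.HC.M_FIN
import Pool.Agent.Helper21.HN.M_PAC
import Pool.Agent.Helper21.HN.M_GEO
import Pool.Agent.Helper21.HN.M_WAY
import Pool.Agent.Helper21.HN.M_NEA
import Pool.Agent.Helper21.HN.M_WTC
import Pool.Agent.Helper21.HN.M_TRA
import Pool.Agent.Helper21.HN.M_TRB
import Pool.Agent.Helper21.HN.M_CST
import Pool.Agent.Helper21.HN.M_COV
import Pool.Agent.Helper21.HN.M_PER
import Pool.Agent.Helper21.HN.M_TOT
import Pool.Agent.Helper21.HN.M_MIN
import Pool.Agent.Helper21.HN.M_SML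
import Pool.Agent.Helper21.HN.M_MKB
import Pool.Agent.Helper21.HN.M_INN
import Pool.Agent.Helper21.HN.M_INQ
import Pool.Agent.Helper21.HN.M_LMN
import Pool.Agent.Helper21.HN.M_TOP
import Pool.Agent.Helper21.HN.M_IMP
import Pool.Agent.Helper21.HN.M_LBA
import Pool.Agent.Helper21.HN.M_ANC
import Pool.Agent.Helper21.HN.M_EXI
import Pool.Agent.Helper21.HN.M_REC
import Pool.Agent.Helper21.HN.M_MEA
import Pool.Agent.Helper21.HN.M_EGP
import Pool.Agent.Helper21.HN.M_LAC
import Pool.Agent.Helper21.HN.M_LAB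
import Pool.Agent.Helper21.HN.M_PRV
import Pool.Agent.Helper21.HN.M_CON
import Pool.Agent.Helper21.HN.M_FNL
import Pool.Agent.Helper21.HN.M_MAI
import Pool.Agent.Helper21.HN.M_LIQ

set_option autoImplicit false

namespace Pool.Agent.Results.MP_10ef18_an.LebesgueNull

open MeasureTheory Pool.Agent.Helper82.HG Pool.Agent.Helper21.HN

/-- **Hector's conjecture on the finiteness of gap orbits for exceptional minimal sets of Lebesgue
measure zero** (and, more generally, of small measure compared with the nonlinearity of the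
generators), in class `C²`, with no other condition on the group. The group is generated by finitely
many circle diffeomorphisms, given by lifts to the line, and the unit translation; `Λ` is the lift of
an exceptional minimal set. If `Λ` is a Lebesgue null set, or if its measure modulo `1` is less than
`1 / (2000000 K)`, where `K ≥ 1` bounds `|F i''| / |F i'|` and `|F i''| / |F i'| ^ 2` for the generators,
then the gaps of `Λ` fall into finitely many orbits. -/
theorem result :
    ∀ (n : ℕ) (F : Fin n → Equiv.Perm ℝ),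
      (∀ i, ContDiff ℝ 2 (⇑(F i))) →
      (∀ i x, deriv (⇑(F i)) x ≠ 0) →
      (∀ i, ∃ d : ℝ, (d = 1 ∨ d = -1) ∧ ∀ x : ℝ, F i (x + 1) = F i x + d) →
      ∀ Λ : Set ℝ, IsClosed Λ →
        (∀ g ∈ Subgroup.closure (insert (Equiv.addRight (1 : ℝ)) (Set.range F)),
            ⇑g '' Λ ⊆ Λ) →
        (∀ K : Set ℝ, K ⊆ Λ → IsClosed K → K.Nonempty →
            (∀ g ∈ Subgroup.closure (insert (Equiv.addRight (1 : ℝ)) (Set.range F)),
                ⇑g '' K ⊆ K) → K = Λ) →
        Λ ≠ Set.univ →
        (Λ ∩ Set.Ico (0 : ℝ) 1).Infinite →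
        (volume Λ = 0 ∨
          ∃ K : ℝ, 1 ≤ K ∧
            (∀ i x, |iteratedDeriv 2 (⇑(F i)) x| ≤ K * |deriv (⇑(F i)) x| ∧
              |iteratedDeriv 2 (⇑(F i)) x| ≤ K * |deriv (⇑(F i)) x| ^ 2) ∧
            volume (Λ ∩ Set.Icc (0 : ℝ) 1) < ENNReal.ofReal (1 / (2000000 * K))) →
        ∃ s : Finset (ℝ × ℝ), ∀ a b : ℝ, a < b → a ∈ Λ → b ∈ Λ →
          Set.Ioo a b ∩ Λ = ∅ →
          ∃ p ∈ s, ∃ g ∈ Subgroup.closure (insert (Equiv.addRight (1 : ℝ)) (Set.range F)),
            ⇑g '' Set.Ioo p.1 p.2 = Set.Ioo a b := by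
  intro n F hF hd hdeg Λ hc hinv hmin hu hinf hcase
  obtain ⟨K, S, hK, hS, hG, hvol⟩ : ∃ (K : ℝ) (S : Set (Equiv.Perm ℝ)), 1 ≤ K ∧ Gens K S ∧
      Gr S = Subgroup.closure (insert (Equiv.addRight (1 : ℝ)) (Set.range F)) ∧
      2000000 * K * (volume (Λ ∩ Set.Icc (0 : ℝ) 1)).toReal < 1 := by
    rcases hcase with h | ⟨K, hK, hb, hv⟩
    · obtain ⟨K, S, hK, hS, hG⟩ := tLIP n F hF hd hdeg
      refine ⟨K, S, hK, hS, hG, ?_⟩
      have h0 : volume (Λ ∩ Set.Icc (0 : ℝ) 1) = 0 := measure_mono_null Set.inter_subset_left h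
      rw [h0]
      simp
    · obtain ⟨S, hS, hG⟩ := tLIQ n F K hF hd hdeg hb
      refine ⟨K, S, hK, hS, hG, ?_⟩
      have hK0 : 0 < K := by linarith
      have h1 : (volume (Λ ∩ Set.Icc (0 : ℝ) 1)).toReal < 1 / (2000000 * K) := by
        have := ENNReal.toReal_strict_mono ENNReal.ofReal_ne_top hv
        rwa [ENNReal.toReal_ofReal (by positivity)] at this
      rw [lt_div_iff₀ (by positivity)] at h1
      linarith
  rw [← hG] at hinv hmin ⊢
  have hLam : Lam S Λ := ⟨hc, hinv, hmin, hu, hinf⟩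
  have bas := tBAS
  have lam := tLAM bas
  have ctl := tCTL bas
  have ctm := tCTM bas ctl
  have pb := tPB tPA
  have ncf := tNCF bas lam ctm tPA pb
  have nid := tNID bas ctl ctm
  have sep := tSEP lam ncf nid tCRO
  have wgt := Pool.Agent.Helper82.HC.tWGT bas lam
  have act := Pool.Agent.Helper82.HC.tACT bas lam
  have far := Pool.Agent.Helper82.HC.tFAR bas lam act
  have fin := Pool.Agent.Helper82.HC.tFIN bas lam wgt
  have pac := tPAC bas act
  have geo := tGEO lam
  have way := tWAY act pac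
  have nea := tNEA bas act ctl way
  have wtc := tWTC lam wgt act nea way
  have tra := tTRA bas act way nea
  have trb := tTRB bas act way nea
  have cst := tCST bas act pac way
  have tot := tTOT bas lam wgt tPER
  have mn := tMIN lam wgt sep
  have sml := tSML lam wgt act way wtc
  have mkb := tMKB lam wgt tot mn sml
  have inn := tINN lam geo wtc
  have inq := tINQ bas lam pac way wtc cst inn
  have lmn := tLMN lam act geo way wtc cst inq
  have top := tTOP act geo way wtc cst lmn
  have imp := tIMP act pac geo way trb cst top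
  have lba := tLBA act pac geo way nea tra cst
  have anc := tANC geo cst lmn
  have exi := tEXI cst
  have hrec := tREC pac cst top anc
  have mea := tMEA lam cst tPER
  have egp := tEGP lam act pac geo way nea cst lmn tPER
  have lac := tLAC act pac geo way cst imp lba anc
  have lab := tLAB act pac geo way wtc cst tCOV lmn exi mea egp lac
  have prv := tPRV act pac geo way cst lmn imp lba
  have con := tCON act pac geo way nea wtc cst tCOV lmn hrec mea egp lab prv
  have fnl := tFNL cst con
  have mai := tMAI lam far fin mkb fnl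
  obtain ⟨s, hs⟩ := mai K S Λ hK hS hLam hvol
  exact ⟨s, fun a b hab ha hb hI => hs a b ⟨hab, ha, hb, hI⟩⟩

end Pool.Agent.Results.MP_10ef18_an.LebesgueNull
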